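import Pool.Agent.Lib_helper91.Stark.Solomon

/-!
# Induction of functions from subgroups of a finite group
-/

open MulAction

namespace StarkSolomon

/-- Extension by zero of a function on a subgroup. -/
noncomputable def extF {G : Type*} [Group G] (H : Subgroup G) (f : H → ℂ) (y : G) : ℂ :=
  open Classical in if h : y ∈ H then f ⟨y, h⟩ else 0

/-- The induced function: `g ↦ |H|⁻¹ ∑ f (x⁻¹ g x)` over the `x` with `x⁻¹ g x ∈ H`. -/
noncomputable def indF {G : Type*} [Group G] (H : Subgroup G) (f : H → ℂ) (g : G) : ℂ :=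
  (Nat.card H : ℂ)⁻¹ * ∑ᶠ x : G, extF H f (x⁻¹ * g * x)

/-- Sums over a group of functions constant on cosets. -/
theorem finsum_comp_coset {G : Type*} [Group G] [Finite G] (K : Subgroup G) {β : Type*}
    (π : G → β) (hs : Function.Surjective π) (hπ : ∀ x y, π x = π y ↔ x⁻¹ * y ∈ K)
    (F : β → ℂ) : ∑ᶠ x : G, F (π x) = Nat.card K * ∑ᶠ b : β, F b := by
  classical
  have : Fintype G := Fintype.ofFinite G
  have : Finite β := Finite.of_surjective π hs
  have : Fintype β := Fintype.ofFinite β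
  rw [finsum_eq_sum_of_fintype, finsum_eq_sum_of_fintype, ← Finset.sum_fiberwise_of_maps_to
    (s := Finset.univ) (t := Finset.univ) (g := π) (fun _ _ => Finset.mem_univ _), Finset.mul_sum]
  refine Finset.sum_congr rfl fun b _ => ?_
  have h1 : ∀ x ∈ Finset.univ.filter (fun x => π x = b), F (π x) = F b := by
    intro x hx
    rw [(Finset.mem_filter.1 hx).2]
  rw [Finset.sum_congr rfl h1, Finset.sum_const, nsmul_eq_mul]
  congr 2
  obtain ⟨y, rfl⟩ := hs b
  rw [← Fintype.card_subtype, ← Nat.card_eq_fintype_card]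
  refine Nat.card_congr ⟨fun x => ⟨y⁻¹ * x.1, (hπ y x.1).1 x.2.symm⟩,
    fun k => ⟨y * k.1, ((hπ y (y * k.1)).2 (by simp)).symm⟩, fun x => ?_, fun k => ?_⟩
  · exact Subtype.ext (by simp)
  · exact Subtype.ext (by simp)

section
variable {G : Type*} [Group G]

theorem extF_of_mem (H : Subgroup G) (f : H → ℂ) {y : G} (h : y ∈ H) : extF H f y = f ⟨y, h⟩ := by
  unfold extF
  rw [dif_pos h]

theorem extF_of_not_mem (H : Subgroup G) (f : H → ℂ) {y : G} (h : y ∉ H) : extF H f y = 0 := by
  unfold extF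
  rw [dif_neg h]

theorem extF_add (H : Subgroup G) (f₁ f₂ : H → ℂ) : extF H (f₁ + f₂) = extF H f₁ + extF H f₂ := by
  funext y
  by_cases h : y ∈ H
  · simp only [Pi.add_apply, extF_of_mem H _ h]
  · simp only [Pi.add_apply, extF_of_not_mem H _ h, add_zero]

theorem extF_neg (H : Subgroup G) (f : H → ℂ) : extF H (-f) = -extF H f := by
  funext y
  by_cases h : y ∈ H
  · simp only [Pi.neg_apply, extF_of_mem H _ h]
  · simp only [Pi.neg_apply, extF_of_not_mem H _ h, neg_zero]

theorem extF_zero (H : Subgroup G) : extF H 0 = 0 := by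
  funext y
  by_cases h : y ∈ H
  · simp only [Pi.zero_apply, extF_of_mem H _ h]
  · simp only [Pi.zero_apply, extF_of_not_mem H _ h]

variable [Finite G]

theorem indF_add (H : Subgroup G) (f₁ f₂ : H → ℂ) : indF H (f₁ + f₂) = indF H f₁ + indF H f₂ := by
  funext g
  simp only [indF, Pi.add_apply, extF_add]
  rw [finsum_add_distrib (Set.toFinite _) (Set.toFinite _), mul_add]

theorem indF_neg (H : Subgroup G) (f : H → ℂ) : indF H (-f) = -indF H f := by
  funext g
  simp only [indF, Pi.neg_apply, extF_neg]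
  rw [finsum_neg_distrib, mul_neg]

theorem indF_zero (H : Subgroup G) : indF H 0 = 0 := by
  funext g
  simp only [indF, Pi.zero_apply, extF_zero, finsum_zero, mul_zero]

/-- Induction as an additive homomorphism. -/
noncomputable def indHom (H : Subgroup G) : (H → ℂ) →+ (G → ℂ) where
  toFun := indF H
  map_zero' := indF_zero H
  map_add' := indF_add H

@[simp] theorem indHom_apply (H : Subgroup G) (f : H → ℂ) : indHom H f = indF H f := rfl

/-- Projection formula. -/
theorem mul_indF (H : Subgroup G) (χ : G → ℂ) (hχ : ∀ g x : G, χ (x⁻¹ * g * x) = χ g)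
    (f : H → ℂ) : χ * indF H f = indF H (fun h => χ h * f h) := by
  funext g
  simp only [indF, Pi.mul_apply]
  rw [mul_left_comm, mul_finsum' _ _ (Set.toFinite _)]
  congr 2
  funext x
  by_cases h : x⁻¹ * g * x ∈ H
  · rw [extF_of_mem H _ h, extF_of_mem H _ h, hχ]
  · rw [extF_of_not_mem H _ h, extF_of_not_mem H _ h, mul_zero]

/-- The permutation character is the induced trivial character. -/
theorem fix_eq_indF (H : Subgroup G) (g : G) : (fix G (G ⧸ H) g : ℂ) = indF H 1 g := by
  classical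
  have : Fintype (G ⧸ H) := Fintype.ofFinite _
  have hH : (Nat.card H : ℂ) ≠ 0 := by
    exact_mod_cast Nat.card_pos.ne'
  rw [indF, eq_inv_mul_iff_mul_eq₀ hH]
  have h1 : ∀ x : G, extF H 1 (x⁻¹ * g * x) =
      (fun q : G ⧸ H => if g • q = q then (1 : ℂ) else 0) (QuotientGroup.mk x) := by
    intro x
    have : g • (QuotientGroup.mk x : G ⧸ H) = QuotientGroup.mk x ↔ x⁻¹ * g * x ∈ H := by
      change (QuotientGroup.mk (g * x) : G ⧸ H) = QuotientGroup.mk x ↔ _
      rw [eq_comm, QuotientGroup.eq, mul_assoc]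
    by_cases h : x⁻¹ * g * x ∈ H
    · rw [extF_of_mem H _ h]
      simp only
      rw [if_pos (this.2 h)]
      rfl
    · rw [extF_of_not_mem H _ h]
      simp only
      rw [if_neg (fun h' => h (this.1 h'))]
  rw [finsum_congr h1, finsum_comp_coset H (QuotientGroup.mk : G → G ⧸ H)
    QuotientGroup.mk_surjective (fun x y => QuotientGroup.eq)
    (fun q : G ⧸ H => if g • q = q then (1 : ℂ) else 0)]
  rw [finsum_eq_sum_of_fintype, Finset.sum_boole, ← Fintype.card_subtype,
    ← Nat.card_eq_fintype_card, fix]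
  simp

/-- The image in `G` of a subgroup of a subgroup. -/
theorem indF_trans (H : Subgroup G) (K : Subgroup H) (f : K → ℂ)
    (f' : K.map H.subtype → ℂ) (hf : ∀ k : K, f' ⟨k.1.1, ⟨k.1, k.2, rfl⟩⟩ = f k) :
    indF H (indF K f) = indF (K.map H.subtype) f' := by
  have hH : (Nat.card H : ℂ) ≠ 0 := by
    exact_mod_cast Nat.card_pos.ne'
  have hcard : Nat.card (K.map H.subtype) = Nat.card K :=
    Nat.card_congr (K.equivMapOfInjective H.subtype H.subtype_injective).symm.toEquiv
  have hext : ∀ (y : G) (h : y ∈ H), extF (K.map H.subtype) f' y = extF K f ⟨y, h⟩ := by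
    intro y h
    by_cases hy : (⟨y, h⟩ : H) ∈ K
    · have hy' : y ∈ K.map H.subtype := ⟨⟨y, h⟩, hy, rfl⟩
      rw [extF_of_mem K f hy, ← hf, extF_of_mem _ _ hy']
    · rw [extF_of_not_mem K f hy, extF_of_not_mem]
      rintro ⟨z, hz, hzy⟩
      apply hy
      have : z = ⟨y, h⟩ := Subtype.ext hzy
      rwa [← this]
  have hext0 : ∀ y : G, y ∉ H → extF (K.map H.subtype) f' y = 0 := by
    intro y hy
    apply extF_of_not_mem
    rintro ⟨z, hz, rfl⟩
    exact hy z.2
  funext g
  simp only [indF]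
  rw [hcard]
  have h1 : ∀ x : G, extF H (indF K f) (x⁻¹ * g * x) =
      (Nat.card K : ℂ)⁻¹ * ∑ᶠ y : H, extF (K.map H.subtype) f' ((x * y)⁻¹ * g * (x * y)) := by
    intro x
    have h2 : ∀ y : H, (x * y.1)⁻¹ * g * (x * y.1) = y.1⁻¹ * (x⁻¹ * g * x) * y.1 := by
      intro y
      group
    by_cases h : x⁻¹ * g * x ∈ H
    · rw [extF_of_mem H _ h, indF]
      congr 1
      apply finsum_congr
      intro y
      rw [h2 y]
      have h3 : y.1⁻¹ * (x⁻¹ * g * x) * y.1 ∈ H := H.mul_mem (H.mul_mem (H.inv_mem y.2) h) y.2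
      rw [hext _ h3]
      rfl
    · rw [extF_of_not_mem H _ h]
      have h3 : ∀ y : H, extF (K.map H.subtype) f' ((x * y)⁻¹ * g * (x * y)) = 0 := by
        intro y
        rw [h2 y]
        apply hext0
        intro h4
        apply h
        have := H.mul_mem (H.mul_mem y.2 h4) (H.inv_mem y.2)
        have h5 : y.1 * (y.1⁻¹ * (x⁻¹ * g * x) * y.1) * y.1⁻¹ = x⁻¹ * g * x := by group
        rwa [h5] at this
      rw [finsum_congr h3, finsum_zero, mul_zero]
  have : Fintype G := Fintype.ofFinite G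
  have : Fintype H := Fintype.ofFinite H
  rw [finsum_congr h1, ← mul_finsum' _ _ (Set.toFinite _)]
  simp only [finsum_eq_sum_of_fintype]
  rw [Finset.sum_comm]
  have h6 : ∀ y : H, ∑ x : G, extF (K.map H.subtype) f' ((x * y)⁻¹ * g * (x * y)) =
      ∑ x : G, extF (K.map H.subtype) f' (x⁻¹ * g * x) := by
    intro y
    exact Fintype.sum_equiv (Equiv.mulRight y.1) _ _ (fun x => rfl)
  simp only [h6]
  rw [Finset.sum_const, Finset.card_univ, ← Nat.card_eq_fintype_card, nsmul_eq_mul]
  rw [mul_left_comm, inv_mul_cancel_left₀ hH]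

/-- Inflation commutes with induction. -/
theorem indF_comap {Q : Type*} [Group Q] (π : G →* Q) (hπ : Function.Surjective π)
    (K : Subgroup Q) (f : K → ℂ) (g : G) :
    indF (K.comap π) (fun z => f ⟨π z.1, z.2⟩) g = indF K f (π g) := by
  have : Finite Q := Finite.of_surjective π hπ
  have hK : (Nat.card K : ℂ) ≠ 0 := by
    exact_mod_cast Nat.card_pos.ne'
  have hk : (Nat.card π.ker : ℂ) ≠ 0 := by
    exact_mod_cast Nat.card_pos.ne'
  have h1 : ∀ x : G, extF (K.comap π) (fun z => f ⟨π z.1, z.2⟩) (x⁻¹ * g * x) =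
      extF K f ((π x)⁻¹ * π g * π x) := by
    intro x
    have h2 : (π x)⁻¹ * π g * π x = π (x⁻¹ * g * x) := by simp
    rw [h2]
    by_cases h : π (x⁻¹ * g * x) ∈ K
    · rw [extF_of_mem K f h, extF_of_mem (K.comap π) _ h]
    · rw [extF_of_not_mem K f h, extF_of_not_mem (K.comap π) _ h]
  have h3 := finsum_comp_coset π.ker π hπ (fun x y => by
    rw [MonoidHom.mem_ker, map_mul, map_inv, inv_mul_eq_one])
    (fun q : Q => extF K f (q⁻¹ * π g * q))
  have hcard : Nat.card (K.comap π) = Nat.card π.ker * Nat.card K := by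
    have e1 := Subgroup.card_mul_index π.ker
    rw [Subgroup.index_ker, MonoidHom.range_eq_top.2 hπ, Subgroup.card_top,
      ← Subgroup.card_mul_index K, ← Subgroup.card_mul_index (K.comap π),
      Subgroup.index_comap_of_surjective K hπ, ← mul_assoc] at e1
    exact (Nat.eq_of_mul_eq_mul_right (Nat.pos_of_ne_zero Subgroup.index_ne_zero_of_finite)
      e1).symm
  simp only [indF]
  rw [finsum_congr h1, h3, hcard]
  push_cast
  rw [mul_inv, mul_comm ((Nat.card π.ker : ℂ)⁻¹), mul_assoc, inv_mul_cancel_left₀ hk]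

end

end StarkSolomon
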