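import Pool.Agent.Lib_helper91.Stark.Weight

/-!
# Hyperelementary groups are monomial; Brauer's theorem
-/

open MulAction

namespace StarkSolomon

section
variable {G : Type*} [Group G] (A : Subgroup G) [A.Normal] [Finite G]
variable {V : Type*} [AddCommGroup V] [Module ℂ V] (ρ : Representation ℂ G V)

theorem wproj_comm (l : A →* ℂˣ) (h : G) (hh : (dualAction A).smul h l = l) (v : V) :
    ρ h (wproj A ρ l v) = wproj A ρ l (ρ h v) := by
  have := wproj_conj A ρ h l
  rw [hh] at this
  exact LinearMap.congr_fun this v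

theorem mem_range (l : A →* ℂˣ) (h : G) (hh : (dualAction A).smul h l = l) :
    ∀ v ∈ LinearMap.range (wproj A ρ l), ρ h v ∈ LinearMap.range (wproj A ρ l) := by
  rintro _ ⟨v, rfl⟩
  exact ⟨ρ h v, (wproj_comm A ρ l h hh v).symm⟩

/-- The representation of a stabiliser on the weight space. -/
noncomputable def wrep (l : A →* ℂˣ) (H : Subgroup G)
    (hH : ∀ h ∈ H, (dualAction A).smul h l = l) :
    Representation ℂ H (LinearMap.range (wproj A ρ l)) where
  toFun h := (ρ h.1).restrict (mem_range A ρ l h.1 (hH h.1 h.2))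
  map_one' := by
    ext v
    simp [LinearMap.restrict_apply]
  map_mul' x y := by
    ext v
    simp [LinearMap.restrict_apply]

theorem wrep_apply (l : A →* ℂˣ) (H : Subgroup G)
    (hH : ∀ h ∈ H, (dualAction A).smul h l = l) (h : H) (v : LinearMap.range (wproj A ρ l)) :
    (wrep A ρ l H hH h v : V) = ρ h.1 v.1 := rfl

omit [A.Normal] in
theorem wproj_of_mem (l : A →* ℂˣ) {v : V} (hv : v ∈ LinearMap.range (wproj A ρ l)) :
    wproj A ρ l v = v := by
  classical
  obtain ⟨w, rfl⟩ := hv
  have := wproj_mul A ρ l l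
  rw [if_pos rfl] at this
  exact LinearMap.congr_fun this w

theorem trace_wrep [FiniteDimensional ℂ V] (l : A →* ℂˣ) (H : Subgroup G)
    (hH : ∀ h ∈ H, (dualAction A).smul h l = l) (h : H) :
    LinearMap.trace ℂ _ (wrep A ρ l H hH h) = wtr A ρ l h.1 := by
  have h1 : ∀ v, (ρ h.1 * wproj A ρ l) v ∈ LinearMap.range (wproj A ρ l) := by
    intro v
    rw [Module.End.mul_apply, wproj_comm A ρ l h.1 (hH h.1 h.2)]
    exact ⟨_, rfl⟩
  have h2 : wrep A ρ l H hH h =
      (ρ h.1 * wproj A ρ l).restrict (fun x (_ : x ∈ LinearMap.range (wproj A ρ l)) => h1 x) := by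
    ext v
    rw [wrep_apply, LinearMap.restrict_apply]
    simp only [Module.End.mul_apply]
    rw [wproj_of_mem A ρ l v.2]
  rw [h2, LinearMap.trace_restrict_eq_of_forall_mem _ _ h1, wtr]

/-- The decomposition of a character along an abelian normal subgroup. -/
theorem char_decomp [FiniteDimensional ℂ V] (hA : ∀ a b : A, a * b = b * a)
    (hmono : ∀ (l : A →* ℂˣ) (H : Subgroup G) (hH : ∀ h ∈ H, (dualAction A).smul h l = l),
      (∀ h, (dualAction A).smul h l = l → h ∈ H) → 
      (fun h => LinearMap.trace ℂ _ (wrep A ρ l H hH h)) ∈ mono H) :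
    (fun g => LinearMap.trace ℂ V (ρ g)) ∈ mono G := by
  classical
  let _ : MulAction G (A →* ℂˣ) := dualAction A
  have : Fintype (orbitRel.Quotient G (A →* ℂˣ)) := Fintype.ofFinite _
  have h1 : (fun g => LinearMap.trace ℂ V (ρ g)) =
      ∑ ω : orbitRel.Quotient G (A →* ℂˣ),
        indF (stabilizer G (Quotient.out ω : A →* ℂˣ))
        (fun h => wtr A ρ (Quotient.out ω : A →* ℂˣ) h) := by
    funext g
    rw [char_eq_sum A ρ hA g, Finset.sum_apply, ← finsum_eq_sum_of_fintype]
    exact sum_orbits (X := A →* ℂˣ) (wtr A ρ) (fun x l g => wtr_smul A ρ x l g) g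
  rw [h1]
  refine AddSubgroup.sum_mem _ fun ω _ => indF_mem_mono _ ?_
  have h2 := hmono (Quotient.out ω : A →* ℂˣ) (stabilizer G (Quotient.out ω : A →* ℂˣ))
    (fun h hh => hh) (fun h hh => hh)
  have h3 : (fun h : stabilizer G (Quotient.out ω : A →* ℂˣ) => LinearMap.trace ℂ _
      (wrep A ρ (Quotient.out ω : A →* ℂˣ) (stabilizer G (Quotient.out ω : A →* ℂˣ))
        (fun h hh => hh) h)) = fun h => wtr A ρ (Quotient.out ω : A →* ℂˣ) h.1 := by
    funext h
    exact trace_wrep A ρ _ _ _ h
  rwa [h3] at h2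

end

/-! ## Group theory -/

section
variable {G : Type*} [Group G] [Finite G]

theorem IsHypP.exists_normal {p : ℕ} (hp : p.Prime) (h : IsHypP p G) :
    ∃ A : Subgroup G, A.Normal ∧ (∀ a b : A, a * b = b * a) ∧
      (A = ⊤ ∨ ∃ a ∈ A, ∃ g : G, g * a ≠ a * g) := by
  classical
  have hpF : Fact p.Prime := ⟨hp⟩
  obtain ⟨C, hN, hC, hcop, k, hk⟩ := h
  by_cases hcen : C ≤ Subgroup.center G
  · by_cases htop : Subgroup.center G = ⊤
    · refine ⟨⊤, inferInstance, ?_, Or.inl rfl⟩
      intro a b
      have ha : a.1 ∈ Subgroup.center G := by rw [htop]; exact Subgroup.mem_top _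
      exact Subtype.ext ((Subgroup.mem_center_iff.1 ha b.1).symm)
    · set Z := Subgroup.center G with hZ
      have hdvd : Z.index ∣ p ^ k := hk ▸ Subgroup.index_dvd_of_le hcen
      have hpg : IsPGroup p (G ⧸ Z) := IsPGroup.of_card_dvd_pow (n := k) hdvd
      have hnt : Nontrivial (G ⧸ Z) := by
        rw [QuotientGroup.nontrivial_iff]
        exact htop
      have hcnt := hpg.center_nontrivial
      obtain ⟨⟨z', hz'⟩, hz1⟩ := exists_ne (1 : Subgroup.center (G ⧸ Z))
      obtain ⟨z, rfl⟩ := QuotientGroup.mk_surjective z'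
      have hz2 : z ∉ Z := by
        intro h
        apply hz1
        apply Subtype.ext
        exact (QuotientGroup.eq_one_iff z).2 h
      have hmem : ∀ a : G, a ∈ (Subgroup.zpowers (QuotientGroup.mk z : G ⧸ Z)).comap
          (QuotientGroup.mk' Z) ↔ ∃ i : ℤ, (z ^ i)⁻¹ * a ∈ Z := by
        intro a
        rw [Subgroup.mem_comap, Subgroup.mem_zpowers_iff]
        apply exists_congr
        intro i
        rw [← QuotientGroup.mk_zpow]
        change (QuotientGroup.mk (z ^ i) : G ⧸ Z) = QuotientGroup.mk a ↔ _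
        rw [QuotientGroup.eq]
      refine ⟨(Subgroup.zpowers (QuotientGroup.mk z : G ⧸ Z)).comap (QuotientGroup.mk' Z),
        ?_, ?_, Or.inr ⟨z, ?_, ?_⟩⟩
      · apply Subgroup.Normal.comap
        constructor
        intro n hn g
        have hn' : n ∈ Subgroup.center (G ⧸ Z) :=
          (Subgroup.zpowers_le.2 hz') hn
        rw [Subgroup.mem_center_iff.1 hn' g, mul_inv_cancel_right]
        exact hn
      · rintro ⟨a, ha⟩ ⟨b, hb⟩
        obtain ⟨i, hi⟩ := (hmem a).1 ha
        obtain ⟨j, hj⟩ := (hmem b).1 hb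
        apply Subtype.ext
        change a * b = b * a
        have ea : a = z ^ i * ((z ^ i)⁻¹ * a) := by group
        have eb : b = z ^ j * ((z ^ j)⁻¹ * b) := by group
        set c := (z ^ i)⁻¹ * a
        set d := (z ^ j)⁻¹ * b
        have hc := Subgroup.mem_center_iff.1 hi
        have hd := Subgroup.mem_center_iff.1 hj
        rw [ea, eb]
        calc z ^ i * c * (z ^ j * d) = z ^ i * (c * z ^ j) * d := by group
          _ = z ^ i * (z ^ j * c) * d := by rw [hc]
          _ = (z ^ i * z ^ j) * (c * d) := by group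
          _ = (z ^ j * z ^ i) * (d * c) := by rw [hc d, ← zpow_add, ← zpow_add, add_comm]
          _ = z ^ j * (z ^ i * d) * c := by group
          _ = z ^ j * (d * z ^ i) * c := by rw [hd]
          _ = z ^ j * d * (z ^ i * c) := by group
      · exact (hmem z).2 ⟨1, by simp⟩
      · by_contra h
        push Not at h
        exact hz2 (Subgroup.mem_center_iff.2 h)
  · refine ⟨C, hN, ?_, Or.inr ?_⟩
    · obtain ⟨c, hc⟩ := hC
      intro a b
      obtain ⟨i, rfl⟩ := Subgroup.mem_zpowers_iff.1 (hc a)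
      obtain ⟨j, rfl⟩ := Subgroup.mem_zpowers_iff.1 (hc b)
      rw [← zpow_add, ← zpow_add, add_comm]
    · by_contra h
      push Not at h
      exact hcen (fun a ha => Subgroup.mem_center_iff.2 (h a ha))

end

/-! ## The monomial theorem -/

theorem extF_top {G : Type*} [Group G] (f : G → ℂ) (y : G) :
    extF (⊤ : Subgroup G) (fun h => f h) y = f y := by
  rw [extF_of_mem _ _ (Subgroup.mem_top y)]

theorem classFn_eq_indF_top {G : Type*} [Group G] [Finite G] (f : G → ℂ)
    (hf : ∀ g x : G, f (x⁻¹ * g * x) = f g) : f = indF (⊤ : Subgroup G) (fun h => f h) := by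
  classical
  have : Fintype G := Fintype.ofFinite G
  have h0 : (Nat.card G : ℂ) ≠ 0 := by
    exact_mod_cast Nat.card_pos.ne'
  funext g
  simp only [indF, extF_top, hf]
  rw [finsum_eq_sum_of_fintype, Finset.sum_const, Finset.card_univ, ← Nat.card_eq_fintype_card,
    Subgroup.card_top, nsmul_eq_mul, inv_mul_cancel_left₀ h0]

theorem linear_mem_mono {G : Type*} [Group G] [Finite G] (ψ : G →* ℂˣ) :
    (fun g => (ψ g : ℂ)) ∈ mono G := by
  rw [classFn_eq_indF_top (fun g => (ψ g : ℂ)) ?_]
  · exact AddSubgroup.subset_closure ⟨⊤, ψ.comp (Subgroup.subtype ⊤), rfl⟩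
  · intro g x
    have : ψ (x⁻¹ * g * x) = ψ g := by
      rw [map_mul, map_mul, map_inv, mul_comm, mul_inv_cancel_left]
    rw [this]

universe u v

/-- Characters of hyperelementary groups are combinations of monomial characters. -/
theorem hyp_mono {p : ℕ} (hp : p.Prime) (n : ℕ) : ∀ (G : Type u) [Group G] [Finite G],
    Nat.card G = n → IsHypP p G → ∀ (V : Type v) [AddCommGroup V] [Module ℂ V]
    [FiniteDimensional ℂ V] (ρ : Representation ℂ G V),
    (fun g => LinearMap.trace ℂ V (ρ g)) ∈ mono G := by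
  classical
  induction n using Nat.strong_induction_on with
  | _ n ih =>
  intro G _ _ hG hyp V _ _ _ ρ
  -- non faithful representations
  have hker : ∀ (K : Type u) [Group K] [Finite K], Nat.card K ≤ n → IsHypP p K →
      ∀ (W : Type v) [AddCommGroup W] [Module ℂ W] [FiniteDimensional ℂ W]
      (σ : Representation ℂ K W), (∃ z : K, z ≠ 1 ∧ σ z = 1) →
      (fun g => LinearMap.trace ℂ W (σ g)) ∈ mono K := by
    intro K _ _ hK hKh W _ _ _ σ ⟨z, hz1, hz⟩
    let σ' : K →* (W →ₗ[ℂ] W)ˣ := MonoidHom.toHomUnits σ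
    have hσ' : ∀ k, ((σ' k : (W →ₗ[ℂ] W)ˣ) : W →ₗ[ℂ] W) = σ k := fun k => rfl
    let N : Subgroup K := σ'.ker
    have hzN : z ∈ N := by
      rw [MonoidHom.mem_ker]
      exact Units.ext hz
    have hcard : Nat.card (K ⧸ N) < n := by
      have h1 : 1 < Nat.card N := by
        rw [Subgroup.one_lt_card_iff_ne_bot]
        intro h
        rw [h, Subgroup.mem_bot] at hzN
        exact hz1 hzN
      have h2 := Subgroup.card_mul_index N
      have h3 : 0 < N.index := Nat.pos_of_ne_zero Subgroup.index_ne_zero_of_finite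
      have h4 : N.index < Nat.card K := by nlinarith
      exact lt_of_lt_of_le h4 hK
    let τ' : K ⧸ N →* (W →ₗ[ℂ] W)ˣ := QuotientGroup.lift N σ' (fun x hx => hx)
    let τ : Representation ℂ (K ⧸ N) W := (Units.coeHom (W →ₗ[ℂ] W)).comp τ'
    have h3 := ih _ hcard (K ⧸ N) rfl
      (hKh.of_surjective hp (QuotientGroup.mk' N) (QuotientGroup.mk'_surjective N)) W τ
    exact comp_mem_mono (QuotientGroup.mk' N) (QuotientGroup.mk'_surjective N) h3
  obtain ⟨A, hAn, hAc, hA⟩ := hyp.exists_normal hp
  refine char_decomp A ρ hAc ?_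
  intro l H hH hH'
  by_cases htop : H = ⊤
  · rcases hA with hA | ⟨a, ha, g, hga⟩
    · -- abelian case
      subst htop
      subst hA
      let e : (⊤ : Subgroup G) →* ℂˣ := l
      have h5 : (fun h => LinearMap.trace ℂ _ (wrep (⊤ : Subgroup G) ρ l ⊤ hH h)) =
          (Module.finrank ℂ (LinearMap.range (wproj (⊤ : Subgroup G) ρ l)) : ℤ) •
            (fun h : (⊤ : Subgroup G) => ((e h : ℂˣ) : ℂ)) := by
        funext h
        have h6 : wrep (⊤ : Subgroup G) ρ l ⊤ hH h = ((l h : ℂˣ) : ℂ) • 1 := by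
          ext v
          rw [wrep_apply]
          have h7 := LinearMap.congr_fun (wproj_smul (⊤ : Subgroup G) ρ h l) v.1
          rw [Module.End.mul_apply, wproj_of_mem _ ρ l v.2] at h7
          rw [h7, LinearMap.smul_apply, wproj_of_mem _ ρ l v.2]
          rfl
        rw [h6, map_smul, LinearMap.trace_one, Pi.smul_apply, smul_eq_mul, zsmul_eq_mul,
          Int.cast_natCast, mul_comm]
      rw [h5]
      exact AddSubgroup.zsmul_mem _ (linear_mem_mono e) _
    · apply hker H
      · rw [← hG]
        exact Nat.card_le_card_of_injective _ H.subtype_injective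
      · exact hyp.of_injective hp H.subtype H.subtype_injective
      · subst htop
        refine ⟨⟨g * a * g⁻¹ * a⁻¹, Subgroup.mem_top _⟩, ?_, ?_⟩
        · intro h
          have h8 : g * a * g⁻¹ * a⁻¹ = 1 := congrArg Subtype.val h
          apply hga
          have h9 : g * a * g⁻¹ = a := mul_inv_eq_one.1 h8
          exact mul_inv_eq_iff_eq_mul.1 h9
        · ext v
          rw [wrep_apply]
          have hg : (dualAction A).smul g l = l := hH g (Subgroup.mem_top _)
          have h10 : l (MulAut.conjNormal g ⟨a, ha⟩) = l ⟨a, ha⟩ := by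
            conv_lhs => rw [← hg]
            change l (MulAut.conjNormal g⁻¹ (MulAut.conjNormal g ⟨a, ha⟩)) = _
            rw [← MulAut.mul_apply, ← map_mul, inv_mul_cancel, map_one, MulAut.one_apply]
          have h11 : l (MulAut.conjNormal g ⟨a, ha⟩ * ⟨a, ha⟩⁻¹) = 1 := by
            rw [map_mul, h10, map_inv, mul_inv_cancel]
          have h12 := LinearMap.congr_fun
            (wproj_smul A ρ (MulAut.conjNormal g ⟨a, ha⟩ * ⟨a, ha⟩⁻¹) l) v.1
          rw [h11, Module.End.mul_apply, LinearMap.smul_apply, wproj_of_mem A ρ l v.2,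
            Units.val_one, one_smul] at h12
          exact h12
  · have hlt : Nat.card H < n := by
      rw [← hG]
      have h2 := Subgroup.card_mul_index H
      have h3 : H.index ≠ 1 := fun h => htop (Subgroup.index_eq_one.1 h)
      have h4 : 0 < H.index := Nat.pos_of_ne_zero Subgroup.index_ne_zero_of_finite
      have h5 : 0 < Nat.card H := Nat.card_pos
      have h6 : 2 ≤ H.index := by omega
      nlinarith
    exact ih _ hlt H rfl (hyp.of_injective hp H.subtype H.subtype_injective) _ _

end StarkSolomon
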