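import Pool.Agent.Lib_helper91.Stark.Ind

/-!
# Monomial characters: hyperelementary groups and Brauer's theorem
-/

open MulAction

namespace StarkSolomon

/-- The additive group generated by the functions induced from linear characters. -/
def mono (G : Type*) [Group G] : AddSubgroup (G → ℂ) :=
  AddSubgroup.closure {f | ∃ (H : Subgroup G) (ψ : H →* ℂˣ), f = indF H (fun h => (ψ h : ℂ))}

section
variable {G : Type*} [Group G] [Finite G]

theorem indF_mem_mono (H : Subgroup G) {f : H → ℂ} (hf : f ∈ mono H) : indF H f ∈ mono G := by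
  induction hf using AddSubgroup.closure_induction with
  | mem f hf =>
    obtain ⟨K, ψ, rfl⟩ := hf
    let e : K ≃* K.map H.subtype := K.equivMapOfInjective H.subtype H.subtype_injective
    rw [indF_trans H K (fun h => (ψ h : ℂ)) (fun z => (ψ (e.symm z) : ℂ)) ?_]
    · exact AddSubgroup.subset_closure ⟨_, ψ.comp e.symm.toMonoidHom, rfl⟩
    · intro k
      have : e k = ⟨k.1.1, ⟨k.1, k.2, rfl⟩⟩ := Subtype.ext rfl
      rw [← this, e.symm_apply_apply]
  | zero => rw [indF_zero]; exact AddSubgroup.zero_mem _
  | add f₁ f₂ _ _ h₁ h₂ => rw [indF_add]; exact AddSubgroup.add_mem _ h₁ h₂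
  | neg f _ h => rw [indF_neg]; exact AddSubgroup.neg_mem _ h

theorem comp_mem_mono {Q : Type*} [Group Q] (π : G →* Q) (hπ : Function.Surjective π)
    {f : Q → ℂ} (hf : f ∈ mono Q) : (fun g => f (π g)) ∈ mono G := by
  induction hf using AddSubgroup.closure_induction with
  | mem f hf =>
    obtain ⟨K, ψ, rfl⟩ := hf
    let π' : K.comap π →* K := (π.comp (K.comap π).subtype).codRestrict K (fun z => z.2)
    have : (fun g => indF K (fun h => (ψ h : ℂ)) (π g)) =
        indF (K.comap π) (fun z => ((ψ.comp π') z : ℂ)) := by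
      funext g
      rw [← indF_comap π hπ K (fun h => (ψ h : ℂ)) g]
      rfl
    rw [this]
    exact AddSubgroup.subset_closure ⟨_, ψ.comp π', rfl⟩
  | zero => exact AddSubgroup.zero_mem _
  | add f₁ f₂ _ _ h₁ h₂ => exact AddSubgroup.add_mem _ h₁ h₂
  | neg f _ h => exact AddSubgroup.neg_mem _ h

/-- Orbit decomposition of a sum of traces. -/
theorem sum_orbits {X : Type*} [MulAction G X] [Finite X] (F : X → G → ℂ)
    (hF : ∀ (x : G) (l : X) (g : G), F (x • l) g = F l (x⁻¹ * g * x)) (g : G) :
    (∑ᶠ l : X, open Classical in if g • l = l then F l g else 0) =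
      ∑ᶠ ω : orbitRel.Quotient G X, indF (stabilizer G (Quotient.out ω : X))
        (fun h => F (Quotient.out ω : X) h) g := by
  classical
  have : Fintype X := Fintype.ofFinite X
  have : Fintype (orbitRel.Quotient G X) := Fintype.ofFinite _
  rw [finsum_eq_sum_of_fintype, finsum_eq_sum_of_fintype, ← Finset.sum_fiberwise_of_maps_to
    (s := Finset.univ) (t := Finset.univ)
    (g := (Quotient.mk'' : X → orbitRel.Quotient G X)) (fun _ _ => Finset.mem_univ _)]
  refine Finset.sum_congr rfl fun ω _ => ?_
  set o : X := Quotient.out ω with ho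
  have ho' : (Quotient.mk'' o : orbitRel.Quotient G X) = ω := Quotient.out_eq' ω
  have hmk : ∀ x : G, (Quotient.mk'' (x • o) : orbitRel.Quotient G X) = ω := by
    intro x
    rw [← ho', Quotient.eq'', orbitRel_apply]
    exact mem_orbit o x
  let π : G → {l : X // (Quotient.mk'' l : orbitRel.Quotient G X) = ω} := fun x => ⟨x • o, hmk x⟩
  have hπs : Function.Surjective π := by
    rintro ⟨l, hl⟩
    rw [← ho', Quotient.eq'', orbitRel_apply] at hl
    obtain ⟨x, hx⟩ := hl
    exact ⟨x, Subtype.ext hx⟩
  have hπ : ∀ x y, π x = π y ↔ x⁻¹ * y ∈ stabilizer G o := by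
    intro x y
    rw [mem_stabilizer_iff, mul_smul, inv_smul_eq_iff]
    constructor
    · intro h
      exact (congrArg Subtype.val h).symm
    · intro h
      exact Subtype.ext h.symm
  have hS : (Nat.card (stabilizer G o) : ℂ) ≠ 0 := by
    exact_mod_cast Nat.card_pos.ne'
  have h1 := finsum_comp_coset (stabilizer G o) π hπs hπ
    (fun l => if g • l.1 = l.1 then F l.1 g else 0)
  have h2 : ∀ x : G, extF (stabilizer G o) (fun h => F o h) (x⁻¹ * g * x) =
      (fun l : {l : X // (Quotient.mk'' l : orbitRel.Quotient G X) = ω} =>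
        if g • l.1 = l.1 then F l.1 g else 0) (π x) := by
    intro x
    have h3 : x⁻¹ * g * x ∈ stabilizer G o ↔ g • (x • o) = x • o := by
      rw [mem_stabilizer_iff, mul_assoc, mul_smul, inv_smul_eq_iff, mul_smul]
    by_cases h : x⁻¹ * g * x ∈ stabilizer G o
    · rw [extF_of_mem _ _ h]
      change _ = if g • (x • o) = x • o then F (x • o) g else 0
      rw [if_pos (h3.1 h), hF]
    · rw [extF_of_not_mem _ _ h]
      change _ = if g • (x • o) = x • o then F (x • o) g else 0
      rw [if_neg (fun h' => h (h3.2 h'))]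
  rw [indF, finsum_congr h2, h1, inv_mul_cancel_left₀ hS, finsum_eq_sum_of_fintype,
    ← Finset.sum_subtype_eq_sum_filter]
  simp

end

end StarkSolomon
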