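import Mathlib

/-!
# Solomon's induction theorem

For a finite group `G` the constant function `1` is an integral combination of the permutation
characters of `G` on `G ⧸ H`, with `H` hyperelementary.
-/

open MulAction

namespace StarkSolomon

/-- A `p`-hyperelementary group: it has a normal cyclic subgroup of order prime to `p` whose index
is a power of `p`. -/
def IsHypP (p : ℕ) (H : Type*) [Group H] : Prop :=
  ∃ C : Subgroup H, C.Normal ∧ IsCyclic C ∧ (Nat.card C).Coprime p ∧ ∃ k, C.index = p ^ k

/-- A hyperelementary group. -/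
def IsHyp (H : Type*) [Group H] : Prop := ∃ p : ℕ, p.Prime ∧ IsHypP p H

theorem IsHypP.of_injective {p : ℕ} (hp : p.Prime) {H K : Type*} [Group H] [Group K]
    (f : K →* H) (hf : Function.Injective f) (h : IsHypP p H) : IsHypP p K := by
  obtain ⟨C, hN, hC, hcop, k, hk⟩ := h
  have hmem : ∀ x : C.comap f, f x ∈ C := fun x => x.2
  let g : C.comap f →* C := (f.comp (C.comap f).subtype).codRestrict C hmem
  have hg : Function.Injective g := by
    intro x y hxy
    have := congrArg Subtype.val hxy
    exact Subtype.ext (hf this)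
  refine ⟨C.comap f, hN.comap f, isCyclic_of_injective g hg, ?_, ?_⟩
  · exact Nat.Coprime.coprime_dvd_left (Subgroup.card_dvd_of_injective g hg) hcop
  · rw [Subgroup.index_comap]
    have : C.relIndex f.range ∣ p ^ k := hk ▸ Subgroup.relIndex_dvd_index_of_normal C f.range
    obtain ⟨j, -, hj⟩ := (Nat.dvd_prime_pow hp).1 this
    exact ⟨j, hj⟩

theorem IsHypP.of_surjective {p : ℕ} (hp : p.Prime) {H K : Type*} [Group H] [Group K]
    (f : H →* K) (hf : Function.Surjective f) (h : IsHypP p H) : IsHypP p K := by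
  obtain ⟨C, hN, hC, hcop, k, hk⟩ := h
  refine ⟨C.map f, hN.map f hf, ?_, ?_, ?_⟩
  · exact isCyclic_of_surjective (f.subgroupMap C) (f.subgroupMap_surjective C)
  · exact Nat.Coprime.coprime_dvd_left (Subgroup.card_map_dvd C f) hcop
  · have : (C.map f).index ∣ p ^ k := hk ▸ Subgroup.index_map_dvd C hf
    obtain ⟨j, -, hj⟩ := (Nat.dvd_prime_pow hp).1 this
    exact ⟨j, hj⟩

theorem IsHyp.of_injective {H K : Type*} [Group H] [Group K]
    (f : K →* H) (hf : Function.Injective f) (h : IsHyp H) : IsHyp K := by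
  obtain ⟨p, hp, h⟩ := h
  exact ⟨p, hp, h.of_injective hp f hf⟩

theorem IsHyp.of_surjective {H K : Type*} [Group H] [Group K]
    (f : H →* K) (hf : Function.Surjective f) (h : IsHyp H) : IsHyp K := by
  obtain ⟨p, hp, h⟩ := h
  exact ⟨p, hp, h.of_surjective hp f hf⟩

/-! ## Fixed points -/

/-- The number of fixed points of `g` on `X`, as an integer. -/
noncomputable def fix (G : Type*) [Group G] (X : Type*) [MulAction G X] (g : G) : ℤ :=
  Nat.card {x : X // g • x = x}

section
variable {G : Type*} [Group G]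

theorem fix_congr {X Y : Type*} [MulAction G X] [MulAction G Y] (e : X ≃ Y)
    (he : ∀ (g : G) (x : X), e (g • x) = g • e x) : fix G X = fix G Y := by
  funext g
  unfold fix
  congr 1
  refine Nat.card_congr (e.subtypeEquiv ?_)
  intro x
  rw [← he]
  exact e.injective.eq_iff.symm

theorem fix_prod {X Y : Type*} [MulAction G X] [MulAction G Y] :
    fix G (X × Y) = fix G X * fix G Y := by
  funext g
  simp only [fix, Pi.mul_apply]
  rw [← Nat.cast_mul, ← Nat.card_prod]
  congr 1
  refine Nat.card_congr ⟨fun z => (⟨z.1.1, congrArg Prod.fst z.2⟩, ⟨z.1.2, congrArg Prod.snd z.2⟩),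
    fun z => ⟨(z.1.1, z.2.1), Prod.ext z.1.2 z.2.2⟩, fun _ => rfl, fun _ => rfl⟩

/-- Decomposition of a finite `G`-set in orbits. -/
theorem fix_orbits (X : Type*) [MulAction G X] [Finite X] [Finite G] :
    fix G X = ∑ᶠ ω : orbitRel.Quotient G X, fix G (G ⧸ stabilizer G (Quotient.out ω : X)) := by
  classical
  have : Fintype X := Fintype.ofFinite X
  have : Fintype (orbitRel.Quotient G X) := Fintype.ofFinite _
  rw [finsum_eq_sum_of_fintype]
  funext g
  rw [Finset.sum_apply]
  simp only [fix]
  rw [← Nat.cast_sum, ← Nat.card_sigma]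
  congr 1
  symm
  refine Nat.card_congr (Equiv.ofBijective
    (fun z => ⟨ofQuotientStabilizer G (Quotient.out z.1 : X) z.2.1, ?_⟩) ⟨?_, ?_⟩)
  · rw [← ofQuotientStabilizer_smul, z.2.2]
  · rintro ⟨ω, q, hq⟩ ⟨ω', q', hq'⟩ h
    have h1 : ofQuotientStabilizer G (Quotient.out ω : X) q =
        ofQuotientStabilizer G (Quotient.out ω' : X) q' := congrArg Subtype.val h
    have h2 := ofQuotientStabilizer_mem_orbit G (Quotient.out ω : X) q
    have h3 := ofQuotientStabilizer_mem_orbit G (Quotient.out ω' : X) q'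
    rw [← h1] at h3
    have h4 : (Quotient.mk'' (Quotient.out ω : X) : orbitRel.Quotient G X) =
        Quotient.mk'' (Quotient.out ω' : X) := by
      rw [Quotient.eq'', orbitRel_apply]
      rw [← orbit_eq_iff.2 h3, orbit_eq_iff.2 h2]
      exact mem_orbit_self _
    rw [Quotient.out_eq', Quotient.out_eq'] at h4
    subst h4
    have := injective_ofQuotientStabilizer G (Quotient.out ω : X) h1
    subst this
    rfl
  · rintro ⟨x, hx⟩
    let ω : orbitRel.Quotient G X := Quotient.mk'' x
    have h1 : x ∈ orbit G (Quotient.out ω : X) := by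
      rw [← orbitRel_apply]
      exact Quotient.exact' (Quotient.out_eq' ω).symm
    obtain ⟨a, ha⟩ := h1
    refine ⟨⟨ω, (QuotientGroup.mk a : G ⧸ stabilizer G (Quotient.out ω : X)), ?_⟩, ?_⟩
    · apply injective_ofQuotientStabilizer G (Quotient.out ω : X)
      rw [ofQuotientStabilizer_smul, ofQuotientStabilizer_mk]
      change a • Quotient.out ω = x at ha
      rw [ha, hx]
    · apply Subtype.ext
      simp only [ofQuotientStabilizer_mk]
      exact ha

end

/-! ## Banaschewski's lemma -/

theorem banaschewski {S : Type*} [Finite S] (R : NonUnitalSubring (S → ℤ))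
    (h : ∀ (x : S) (p : ℕ), p.Prime → ∃ f ∈ R, ¬ (p : ℤ) ∣ f x) : (1 : S → ℤ) ∈ R := by
  classical
  have : Fintype S := Fintype.ofFinite S
  have h1 : ∀ x : S, ∃ f ∈ R, f x = 1 := by
    intro x
    let I : AddSubgroup ℤ := R.toAddSubgroup.map (Pi.evalAddMonoidHom (fun _ => ℤ) x)
    obtain ⟨n, hn⟩ := Int.subgroup_cyclic I
    have hI : ∀ z, z ∈ I ↔ ∃ f ∈ R, f x = z := by
      intro z
      simp only [I, AddSubgroup.mem_map]
      rfl
    have hn' : ∀ z, z ∈ I ↔ n ∣ z := by
      intro z
      rw [hn, AddSubgroup.mem_closure_singleton]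
      constructor
      · rintro ⟨k, rfl⟩
        exact ⟨k, by simp [mul_comm]⟩
      · rintro ⟨k, rfl⟩
        exact ⟨k, by simp [mul_comm]⟩
    by_cases hu : IsUnit n
    · have : (1 : ℤ) ∈ I := (hn' 1).2 hu.dvd
      exact (hI 1).1 this
    · exfalso
      have hna : n.natAbs ≠ 1 := fun h => hu (Int.isUnit_iff_natAbs_eq.2 h)
      obtain ⟨p, hp, hpn⟩ := Nat.exists_prime_and_dvd hna
      obtain ⟨f, hf, hfx⟩ := h x p hp
      apply hfx
      have : n ∣ f x := (hn' _).1 ((hI _).2 ⟨f, hf, rfl⟩)
      exact (Int.natCast_dvd.2 hpn).trans this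
  choose f hf hf1 using h1
  have h2 : ∀ s : Finset S, 1 - ∏ x ∈ s, (1 - f x) ∈ R := by
    intro s
    induction s using Finset.induction_on with
    | empty => simp only [Finset.prod_empty, sub_self]; exact R.zero_mem
    | insert a s ha ih =>
      rw [Finset.prod_insert ha]
      have : 1 - (1 - f a) * ∏ x ∈ s, (1 - f x)
          = (1 - ∏ x ∈ s, (1 - f x)) + f a - f a * (1 - ∏ x ∈ s, (1 - f x)) := by ring
      rw [this]
      exact R.sub_mem (R.add_mem ih (hf a)) (R.mul_mem (hf a) ih)
  have h3 : ∏ x : S, (1 - f x) = 0 := by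
    funext y
    rw [Finset.prod_apply]
    apply Finset.prod_eq_zero (Finset.mem_univ y)
    simp [hf1]
  have := h2 Finset.univ
  rwa [h3, sub_zero] at this

/-! ## The ring of hyperelementary permutation characters -/

section
variable (G : Type*) [Group G] [Finite G]

/-- The set of permutation characters `fix G (G ⧸ H)`, `H` hyperelementary. -/
def hypSet : Set (G → ℤ) := {f | ∃ H : Subgroup G, IsHyp H ∧ f = fix G (G ⧸ H)}

theorem fix_mem_closure (X : Type*) [MulAction G X] [Finite X]
    (hX : ∀ x : X, IsHyp (stabilizer G x)) : fix G X ∈ AddSubgroup.closure (hypSet G) := by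
  classical
  have : Fintype (orbitRel.Quotient G X) := Fintype.ofFinite _
  rw [fix_orbits, finsum_eq_sum_of_fintype]
  refine AddSubgroup.sum_mem _ fun ω _ => AddSubgroup.subset_closure ⟨_, hX _, rfl⟩

/-- The additive group generated by the hyperelementary permutation characters, a (non unital)
ring. -/
def hypRing : NonUnitalSubring (G → ℤ) where
  carrier := AddSubgroup.closure (hypSet G)
  add_mem' := fun h1 h2 => AddSubgroup.add_mem _ h1 h2
  zero_mem' := AddSubgroup.zero_mem _
  neg_mem' := fun h => AddSubgroup.neg_mem _ h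
  mul_mem' := by
    intro a b ha hb
    refine AddSubgroup.closure_induction₂ (p := fun a b _ _ =>
      a * b ∈ AddSubgroup.closure (hypSet G)) ?_ ?_ ?_ ?_ ?_ ?_ ?_ ha hb
    · rintro _ _ ⟨H, hH, rfl⟩ ⟨K, hK, rfl⟩
      rw [← fix_prod]
      apply fix_mem_closure
      rintro ⟨x, y⟩
      obtain ⟨g, rfl⟩ := QuotientGroup.mk_surjective x
      have h1 : ∀ z : stabilizer G ((QuotientGroup.mk g : G ⧸ H), y),
          g⁻¹ * z.1 * g ∈ H := by
        intro z
        have hz : z.1 • (QuotientGroup.mk g : G ⧸ H) = QuotientGroup.mk g :=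
          congrArg Prod.fst (mem_stabilizer_iff.1 z.2)
        have : (QuotientGroup.mk (z.1 * g) : G ⧸ H) = QuotientGroup.mk g := hz
        rw [eq_comm, QuotientGroup.eq] at this
        rwa [mul_assoc]
      let F : stabilizer G ((QuotientGroup.mk g : G ⧸ H), y) →* H :=
        ((MulAut.conj g⁻¹).toMonoidHom.comp (Subgroup.subtype _)).codRestrict H (by
          intro z
          simpa using h1 z)
      refine hH.of_injective F ?_
      intro z w hzw
      have : (MulAut.conj g⁻¹) z.1 = (MulAut.conj g⁻¹) w.1 := congrArg Subtype.val hzw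
      exact Subtype.ext ((MulAut.conj g⁻¹).injective this)
    · intro x _
      rw [zero_mul]
      exact AddSubgroup.zero_mem _
    · intro x _
      rw [mul_zero]
      exact AddSubgroup.zero_mem _
    · intro x y z _ _ _ h1 h2
      rw [add_mul]
      exact AddSubgroup.add_mem _ h1 h2
    · intro x y z _ _ _ h1 h2
      rw [mul_add]
      exact AddSubgroup.add_mem _ h1 h2
    · intro x y _ _ h
      rw [neg_mul]
      exact AddSubgroup.neg_mem _ h
    · intro x y _ _ h
      rw [mul_neg]
      exact AddSubgroup.neg_mem _ h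

end

/-! ## For every element and every prime there is a good hyperelementary subgroup -/

section
variable {G : Type*} [Group G] [Finite G]

open Subgroup in
theorem exists_hyp (x : G) (p : ℕ) (hp : p.Prime) :
    ∃ H : Subgroup G, IsHypP p H ∧ ¬ (p : ℤ) ∣ fix G (G ⧸ H) x := by
  classical
  have hpF : Fact p.Prime := ⟨hp⟩
  -- the `p'`-part
  obtain ⟨a, m, hpm, hn⟩ := Nat.exists_eq_pow_mul_and_not_dvd (orderOf_pos x).ne' p hp.ne_one
  set c : G := x ^ p ^ a with hc
  have hco : orderOf c = m := by
    rw [hc, orderOf_pow, hn, Nat.gcd_eq_right (Dvd.intro _ rfl), Nat.mul_div_cancel_left _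
      (pow_pos hp.pos a)]
  set C : Subgroup G := zpowers c with hC
  have hCcard : Nat.card C = m := by rw [hC, Nat.card_zpowers, hco]
  have hmp : m.Coprime p := (hp.coprime_iff_not_dvd.2 hpm).symm
  set N : Subgroup G := normalizer (C : Set G) with hN
  have hCN : C ≤ N := le_normalizer
  have hxc : Commute x c := (Commute.refl x).pow_right _
  have hxN : x ∈ N := by
    have hcen : x ∈ centralizer (C : Set G) := by
      rw [mem_centralizer_iff]
      intro h hh
      obtain ⟨k, rfl⟩ := mem_zpowers_iff.1 (SetLike.mem_coe.1 hh)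
      exact (hxc.zpow_right k).eq.symm
    exact centralizer_le_normalizer _ hcen
  set C' : Subgroup N := C.subgroupOf N with hC'
  have hC'n : C'.Normal := (normal_subgroupOf_iff_le_normalizer hCN).2 le_rfl
  let π : N →* N ⧸ C' := QuotientGroup.mk' C'
  have hπ : Function.Surjective π := QuotientGroup.mk'_surjective C'
  have hker : ∀ z : N, π z = 1 ↔ z.1 ∈ C := by
    intro z
    change (QuotientGroup.mk z : N ⧸ C') = 1 ↔ _
    rw [QuotientGroup.eq_one_iff, hC', mem_subgroupOf]
  have hx1 : π ⟨x, hxN⟩ ^ p ^ a = 1 := by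
    rw [← map_pow, hker]
    exact mem_zpowers c
  have hpg : IsPGroup p (zpowers (π ⟨x, hxN⟩)) := by
    rintro ⟨z, hz⟩
    obtain ⟨k, rfl⟩ := mem_zpowers_iff.1 hz
    refine ⟨a, Subtype.ext ?_⟩
    simp only [SubmonoidClass.mk_pow, OneMemClass.coe_one]
    rw [← zpow_natCast, zpow_comm, zpow_natCast, hx1, one_zpow]
  obtain ⟨P, hP⟩ := hpg.exists_le_sylow
  set H' : Subgroup N := (P : Subgroup (N ⧸ C')).comap π with hH'
  set H : Subgroup G := H'.map N.subtype with hH
  have hHN : H ≤ N := map_subtype_le H'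
  have hHH' : H.subgroupOf N = H' := by
    rw [hH, subgroupOf, comap_map_eq_self_of_injective (subtype_injective N)]
  have hmemH : ∀ z : N, z.1 ∈ H ↔ π z ∈ P := by
    intro z
    have : z ∈ H.subgroupOf N ↔ z ∈ H' := by rw [hHH']
    rw [mem_subgroupOf] at this
    rw [this, hH', mem_comap]
    rfl
  have hxH : x ∈ H := by
    rw [hmemH ⟨x, hxN⟩]
    exact hP (mem_zpowers _)
  have hCH : C ≤ H := by
    intro z hz
    rw [hmemH ⟨z, hCN hz⟩, (hker ⟨z, hCN hz⟩).2 hz]
    exact one_mem _
  have hidx : H.relIndex N = (P : Subgroup (N ⧸ C')).index := by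
    rw [relIndex, hHH', hH']
    exact index_comap_of_surjective _ hπ
  have hnd : ¬ p ∣ H.relIndex N := by
    rw [hidx]
    exact P.not_dvd_index
  obtain ⟨k, hk⟩ := (IsPGroup.iff_card (p := p)).1 P.isPGroup'
  have hCk : C.relIndex H = p ^ k := by
    have h1 := relIndex_mul_relIndex C H N hCH hHN
    have h2 : C.relIndex N = Nat.card (N ⧸ C') := rfl
    have h3 := card_mul_index (P : Subgroup (N ⧸ C'))
    rw [h2, ← h3, hidx] at h1
    have h4 : 0 < (P : Subgroup (N ⧸ C')).index := Nat.pos_of_ne_zero index_ne_zero_of_finite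
    rw [← hk]
    exact Nat.eq_of_mul_eq_mul_right h4 h1
  refine ⟨H, ⟨C.subgroupOf H, ?_, ?_, ?_, k, hCk⟩, ?_⟩
  · exact (normal_subgroupOf_iff_le_normalizer hCH).2 hHN
  · have : IsCyclic C := by rw [hC]; infer_instance
    exact isCyclic_of_surjective (subgroupOfEquivOfLe hCH).symm
      (subgroupOfEquivOfLe hCH).symm.surjective
  · rw [Nat.card_congr (subgroupOfEquivOfLe hCH).toEquiv, hCcard]
    exact hmp
  -- the claim on conjugates
  have hkey : ∀ y : G, y⁻¹ * c * y ∈ H → y ∈ N := by
    intro y hy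
    set d : G := y⁻¹ * c * y with hd
    have hdpow : ∀ k : ℤ, y⁻¹ * c ^ k * y = d ^ k := by
      intro k
      have := map_zpow (MulAut.conj y⁻¹) c k
      simpa [MulAut.conj_apply] using this
    have hdo : orderOf d = m := by
      have := (MulEquiv.orderOf_eq (MulAut.conj y⁻¹) c)
      rw [MulAut.conj_apply, inv_inv] at this
      rw [hd, this, hco]
    have hdC : d ∈ C := by
      have h1 : π ⟨d, hHN hy⟩ ∈ P := (hmemH ⟨d, hHN hy⟩).1 hy
      have h2 : orderOf (π ⟨d, hHN hy⟩) ∣ m := by
        rw [← hdo]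
        apply orderOf_dvd_of_pow_eq_one
        rw [← map_pow, hker]
        change d ^ orderOf d ∈ C
        rw [pow_orderOf_eq_one]
        exact one_mem _
      have h3 : orderOf (π ⟨d, hHN hy⟩) ∣ p ^ k := by
        rw [← hk]
        have : orderOf (⟨π ⟨d, hHN hy⟩, h1⟩ : P) ∣ Nat.card P := orderOf_dvd_natCard _
        rwa [Subgroup.orderOf_mk] at this
      have h4 : orderOf (π ⟨d, hHN hy⟩) = 1 :=
        Nat.eq_one_of_dvd_coprimes (hmp.pow_right k) h2 h3
      rw [orderOf_eq_one_iff, hker] at h4
      exact h4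
    have hCd : zpowers d = C := by
      apply eq_of_le_of_card_ge
      · rw [zpowers_le]; exact hdC
      · rw [hCcard, Nat.card_zpowers, hdo]
    rw [hN, mem_normalizer_iff'']
    intro h
    constructor
    · intro hh
      obtain ⟨k, rfl⟩ := mem_zpowers_iff.1 hh
      rw [hdpow, ← hCd]
      exact zpow_mem (mem_zpowers d) k
    · intro hh
      rw [← hCd] at hh
      obtain ⟨k, hk⟩ := mem_zpowers_iff.1 hh
      have : h = c ^ k := by
        have h5 := hdpow k
        rw [hk] at h5
        simpa using h5.symm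
      rw [this]
      exact zpow_mem (mem_zpowers c) k
  -- the fixed points of `c`
  let Y : Type _ := {q : G ⧸ H // c • q = q}
  have hYset : {q : G ⧸ H | c • q = q} = MulAction.orbit N (QuotientGroup.mk 1 : G ⧸ H) := by
    ext q
    obtain ⟨y, rfl⟩ := QuotientGroup.mk_surjective q
    constructor
    · intro hq
      have h1 : (QuotientGroup.mk (c * y) : G ⧸ H) = QuotientGroup.mk y := hq
      rw [eq_comm, QuotientGroup.eq, ← mul_assoc] at h1
      refine ⟨⟨y, hkey y h1⟩, ?_⟩
      change (QuotientGroup.mk (y * 1) : G ⧸ H) = QuotientGroup.mk y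
      rw [mul_one]
    · rintro ⟨⟨z, hz⟩, hzy⟩
      change (QuotientGroup.mk (z * 1) : G ⧸ H) = QuotientGroup.mk y at hzy
      rw [mul_one] at hzy
      rw [← hzy]
      change (QuotientGroup.mk (c * z) : G ⧸ H) = QuotientGroup.mk z
      rw [eq_comm, QuotientGroup.eq, ← mul_assoc]
      apply hCH
      exact (mem_normalizer_iff''.1 hz c).1 (mem_zpowers c)
  have hYcard : Nat.card Y = H.relIndex N := by
    have h1 : Nat.card Y = (MulAction.orbit N (QuotientGroup.mk 1 : G ⧸ H)).ncard := by
      rw [← hYset]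
      rfl
    rw [h1, ← MulAction.index_stabilizer]
    congr 1
    ext z
    rw [MulAction.mem_stabilizer_iff, mem_subgroupOf]
    change (QuotientGroup.mk (z.1 * 1) : G ⧸ H) = QuotientGroup.mk 1 ↔ _
    rw [mul_one, eq_comm, QuotientGroup.eq, inv_one, one_mul]
  have hcomm : x * c = c * x := hxc.eq
  let f : Function.End Y := fun q => ⟨x • q.1, by
    rw [smul_smul, ← hcomm, ← smul_smul, q.2]⟩
  have hfpow : ∀ (n : ℕ) (q : Y), ((f ^ n) q).1 = x ^ n • q.1 := by
    intro n
    induction n with
    | zero =>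
      intro q
      rw [pow_zero, pow_zero, one_smul]
      rfl
    | succ n ih =>
      intro q
      rw [pow_succ']
      change x • ((f ^ n) q).1 = _
      rw [ih, smul_smul, ← pow_succ']
  have hf1 : f ^ p ^ a = 1 := by
    funext q
    apply Subtype.ext
    rw [hfpow]
    exact q.2
  have : Fintype Y := Fintype.ofFinite Y
  have hmod := Equiv.Perm.card_fixedPoints_modEq hf1
  rw [← Nat.card_eq_fintype_card, ← Nat.card_eq_fintype_card, hYcard] at hmod
  have hfix : Nat.card {q : G ⧸ H // x • q = q} = Nat.card (Function.fixedPoints f) := by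
    refine Nat.card_congr ⟨fun q => ⟨⟨q.1, ?_⟩, ?_⟩, fun q => ⟨q.1.1, ?_⟩, fun _ => rfl,
      fun _ => rfl⟩
    · change (x ^ p ^ a) • q.1 = q.1
      have h6 : ∀ n : ℕ, x ^ n • q.1 = q.1 := by
        intro n
        induction n with
        | zero => simp
        | succ n ih => rw [pow_succ', mul_smul, ih, q.2]
      exact h6 _
    · exact Subtype.ext q.2
    · exact congrArg Subtype.val q.2
  intro hdvd
  rw [fix, Int.natCast_dvd_natCast, hfix] at hdvd
  exact hnd ((Nat.ModEq.dvd_iff hmod (dvd_refl p)).2 hdvd)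

end

theorem solomon (G : Type*) [Group G] [Finite G] :
    (1 : G → ℤ) ∈ AddSubgroup.closure (hypSet G) := by
  have := banaschewski (hypRing G) (by
    intro x p hp
    obtain ⟨H, hH, hpx⟩ := exists_hyp x p hp
    exact ⟨_, AddSubgroup.subset_closure ⟨H, ⟨p, hp, hH⟩, rfl⟩, hpx⟩)
  exact this

theorem exists_of_mem_closure (G : Type*) [Group G] [Finite G] {f : G → ℤ}
    (hf : f ∈ AddSubgroup.closure (hypSet G)) :
    ∃ n : Subgroup G → ℤ, (∀ H, n H ≠ 0 → IsHyp H) ∧
      ∀ g : G, ∑ᶠ H : Subgroup G, n H * fix G (G ⧸ H) g = f g := by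
  classical
  have : Fintype (Subgroup G) := Fintype.ofFinite _
  simp only [finsum_eq_sum_of_fintype]
  induction hf using AddSubgroup.closure_induction with
  | mem f hf =>
    obtain ⟨H, hH, rfl⟩ := hf
    refine ⟨fun K => if K = H then 1 else 0, ?_, ?_⟩
    · intro K hK
      have : K = H := by
        by_contra h
        simp [h] at hK
      rw [this]
      exact hH
    · intro g
      simp
  | zero => exact ⟨0, by simp, by simp⟩
  | add f₁ f₂ _ _ h₁ h₂ =>
    obtain ⟨n₁, h1, h1'⟩ := h₁
    obtain ⟨n₂, h2, h2'⟩ := h₂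
    refine ⟨n₁ + n₂, ?_, ?_⟩
    · intro H hH
      by_cases h : n₁ H = 0
      · apply h2
        intro h'
        exact hH (by simp [h, h'])
      · exact h1 H h
    · intro g
      simp only [Pi.add_apply, add_mul, Finset.sum_add_distrib, h1', h2']
  | neg f _ h =>
    obtain ⟨n, h1, h1'⟩ := h
    refine ⟨-n, ?_, ?_⟩
    · intro H hH
      exact h1 H (by simpa using hH)
    · intro g
      simp only [Pi.neg_apply, neg_mul, Finset.sum_neg_distrib, h1']

/-- Solomon's induction theorem. -/
theorem solomon_exists (G : Type*) [Group G] [Finite G] :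
    ∃ n : Subgroup G → ℤ, (∀ H, n H ≠ 0 → IsHyp H) ∧
      ∀ g : G, ∑ᶠ H : Subgroup G, n H * Nat.card {q : G ⧸ H // g • q = q} = 1 :=
  exists_of_mem_closure G (solomon G)

end StarkSolomon
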