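import Pool.Agent.Lib_helper91.Stark.Mono

/-!
# Weight decomposition of a representation along an abelian normal subgroup
-/

open MulAction

namespace StarkSolomon

section Dual
variable {A : Type*} [CommGroup A] [Finite A]

theorem sum_dual (a : A) [Fintype (A →* ℂˣ)] [Decidable (a = 1)] :
    ∑ l : A →* ℂˣ, ((l a : ℂˣ) : ℂ) = if a = 1 then (Nat.card A : ℂ) else 0 := by
  split_ifs with h
  · subst h
    simp only [map_one, Units.val_one, Finset.sum_const, Finset.card_univ, nsmul_eq_mul, mul_one]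
    rw [← Nat.card_eq_fintype_card, CommGroup.card_monoidHom_of_hasEnoughRootsOfUnity A ℂ]
  · obtain ⟨μ, hμ⟩ := CommGroup.exists_apply_ne_one_of_hasEnoughRootsOfUnity A ℂ h
    have h1 : ∑ l : A →* ℂˣ, ((l a : ℂˣ) : ℂ) = (μ a : ℂ) * ∑ l : A →* ℂˣ, ((l a : ℂˣ) : ℂ) := by
      rw [Finset.mul_sum]
      exact (Fintype.sum_equiv (Equiv.mulLeft μ) (fun l => (μ a : ℂ) * ((l a : ℂˣ) : ℂ))
        (fun l => ((l a : ℂˣ) : ℂ)) (fun l => by simp)).symm
    have h2 : ((μ a : ℂ) - 1) * ∑ l : A →* ℂˣ, ((l a : ℂˣ) : ℂ) = 0 := by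
      rw [sub_mul, one_mul, ← h1, sub_self]
    rcases mul_eq_zero.1 h2 with h3 | h3
    · exfalso
      apply hμ
      exact Units.ext (sub_eq_zero.1 h3)
    · exact h3

end Dual

theorem sum_group {A : Type*} [Group A] (l μ : A →* ℂˣ) [Fintype A] [Decidable (l = μ)] :
    ∑ a : A, ((l a : ℂˣ) : ℂ) * ((μ a : ℂˣ) : ℂ)⁻¹ = if l = μ then (Nat.card A : ℂ) else 0 := by
  classical
  have h1 := sum_hom_units ((Units.coeHom ℂ).comp (l * μ⁻¹))
  have h2 : (Units.coeHom ℂ).comp (l * μ⁻¹) = 1 ↔ l = μ := by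
    constructor
    · intro h
      ext a
      have := DFunLike.congr_fun h a
      simp only [MonoidHom.comp_apply, MonoidHom.mul_apply, MonoidHom.inv_apply,
        Units.coeHom_apply, Units.val_mul, Units.val_inv_eq_inv_val, MonoidHom.one_apply] at this
      exact (mul_inv_eq_one₀ (Units.ne_zero _)).1 this
    · rintro rfl
      ext a
      simp
  rw [Nat.card_eq_fintype_card]
  by_cases h : l = μ
  · rw [if_pos h]
    rw [if_pos (h2.2 h)] at h1
    simpa using h1
  · rw [if_neg h]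
    rw [if_neg (fun h' => h (h2.1 h'))] at h1
    simpa using h1

theorem sum_dual' {A : Type*} [Group A] [Finite A] (hA : ∀ a b : A, a * b = b * a) (a : A)
    [Fintype (A →* ℂˣ)] [Decidable (a = 1)] :
    ∑ l : A →* ℂˣ, ((l a : ℂˣ) : ℂ) = if a = 1 then (Nat.card A : ℂ) else 0 := by
  let _ : CommGroup A := { ‹Group A› with mul_comm := hA }
  exact sum_dual a

section
variable {G : Type*} [Group G] (A : Subgroup G) [A.Normal]

/-- The conjugation action on the linear characters of a normal subgroup. -/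
@[reducible] def dualAction : MulAction G (A →* ℂˣ) where
  smul g l := l.comp (MulAut.conjNormal g⁻¹).toMonoidHom
  one_smul l := by
    ext a
    change ((l (MulAut.conjNormal (1 : G)⁻¹ a) : ℂˣ) : ℂ) = l a
    simp
  mul_smul g h l := by
    ext a
    change ((l (MulAut.conjNormal (g * h)⁻¹ a) : ℂˣ) : ℂ) =
      l (MulAut.conjNormal h⁻¹ (MulAut.conjNormal g⁻¹ a))
    rw [mul_inv_rev, map_mul]
    rfl

variable [Finite G]
variable {V : Type*} [AddCommGroup V] [Module ℂ V] (ρ : Representation ℂ G V)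

/-- The projection on the weight space of a linear character of an abelian normal subgroup. -/
noncomputable def wproj (l : A →* ℂˣ) : V →ₗ[ℂ] V :=
  (Nat.card A : ℂ)⁻¹ • ∑ᶠ a : A, ((l a : ℂˣ) : ℂ)⁻¹ • ρ a

theorem wproj_conj (g : G) (l : A →* ℂˣ) :
    ρ g * wproj A ρ l = wproj A ρ ((dualAction A).smul g l) * ρ g := by
  classical
  have : Fintype A := Fintype.ofFinite A
  simp only [wproj, finsum_eq_sum_of_fintype]
  rw [mul_smul_comm, smul_mul_assoc, Finset.mul_sum, Finset.sum_mul]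
  congr 1
  refine Fintype.sum_equiv (MulAut.conjNormal g).toEquiv _ _ (fun a => ?_)
  rw [mul_smul_comm, smul_mul_assoc, ← map_mul, ← map_mul]
  have h1 : ((dualAction A).smul g l) ((MulAut.conjNormal g).toEquiv a) = l a := by
    change l (MulAut.conjNormal g⁻¹ (MulAut.conjNormal g a)) = l a
    rw [← MulAut.mul_apply, ← map_mul, inv_mul_cancel, map_one, MulAut.one_apply]
  rw [h1]
  congr 2
  change g * a = (g * a * g⁻¹) * g
  group

omit [A.Normal] in
theorem wproj_smul (a : A) (l : A →* ℂˣ) :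
    ρ a * wproj A ρ l = ((l a : ℂˣ) : ℂ) • wproj A ρ l := by
  classical
  have : Fintype A := Fintype.ofFinite A
  simp only [wproj, finsum_eq_sum_of_fintype]
  rw [mul_smul_comm, smul_comm ((l a : ℂˣ) : ℂ), Finset.mul_sum]
  congr 1
  rw [Finset.smul_sum]
  refine Fintype.sum_equiv (Equiv.mulLeft a) _ _ (fun b => ?_)
  rw [mul_smul_comm, ← map_mul, smul_smul]
  simp only [Equiv.coe_mulLeft, map_mul, Units.val_mul, mul_inv, Subgroup.coe_mul]
  rw [mul_inv_cancel_left₀ (Units.ne_zero _)]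

variable (hA : ∀ a b : A, a * b = b * a)

omit [A.Normal] in
theorem wproj_mul (l μ : A →* ℂˣ) [Decidable (l = μ)] :
    wproj A ρ μ * wproj A ρ l = if l = μ then wproj A ρ l else 0 := by
  classical
  have : Fintype A := Fintype.ofFinite A
  have h0 : (Nat.card A : ℂ) ≠ 0 := by
    exact_mod_cast Nat.card_pos.ne'
  conv_lhs => rw [wproj, finsum_eq_sum_of_fintype]
  rw [smul_mul_assoc, Finset.sum_mul]
  have h1 : ∀ a : A, (((μ a : ℂˣ) : ℂ)⁻¹ • ρ a) * wproj A ρ l =
      (((l a : ℂˣ) : ℂ) * ((μ a : ℂˣ) : ℂ)⁻¹) • wproj A ρ l := by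
    intro a
    rw [smul_mul_assoc, wproj_smul, smul_smul, mul_comm]
  rw [Finset.sum_congr rfl (fun a _ => h1 a), ← Finset.sum_smul, sum_group l μ]
  split_ifs with h
  · rw [smul_smul, inv_mul_cancel₀ h0, one_smul]
  · rw [zero_smul, smul_zero]

omit [A.Normal] in
include hA in
theorem sum_wproj : ∑ᶠ l : A →* ℂˣ, wproj A ρ l = 1 := by
  classical
  have : Fintype A := Fintype.ofFinite A
  have : Fintype (A →* ℂˣ) := Fintype.ofFinite _
  have h0 : (Nat.card A : ℂ) ≠ 0 := by
    exact_mod_cast Nat.card_pos.ne'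
  simp only [wproj, finsum_eq_sum_of_fintype]
  rw [← Finset.smul_sum, Finset.sum_comm]
  have h1 : ∀ a : A, ∑ l : A →* ℂˣ, ((l a : ℂˣ) : ℂ)⁻¹ • ρ a =
      if a = 1 then (Nat.card A : ℂ) • 1 else 0 := by
    intro a
    have h2 := sum_dual' (A := A) hA (a⁻¹)
    have h3 : ∀ l : A →* ℂˣ, ((l a : ℂˣ) : ℂ)⁻¹ = ((l a⁻¹ : ℂˣ) : ℂ) := by
      intro l
      simp
    rw [← Finset.sum_smul, Finset.sum_congr rfl (fun l _ => h3 l), h2]
    by_cases h : a = 1
    · subst h
      simp
    · rw [if_neg h, if_neg (by simpa using h), zero_smul]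
  rw [Finset.sum_congr rfl (fun a _ => h1 a), Finset.sum_ite_eq' , if_pos (Finset.mem_univ _),
    smul_smul, inv_mul_cancel₀ h0, one_smul]

/-- The trace of `g` on the weight space. -/
noncomputable def wtr (l : A →* ℂˣ) (g : G) : ℂ := LinearMap.trace ℂ V (ρ g * wproj A ρ l)

theorem wtr_smul (x : G) (l : A →* ℂˣ) (g : G) :
    wtr A ρ ((dualAction A).smul x l) g = wtr A ρ l (x⁻¹ * g * x) := by
  unfold wtr
  have h1 : wproj A ρ ((dualAction A).smul x l) = ρ x * wproj A ρ l * ρ x⁻¹ := by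
    rw [wproj_conj, mul_assoc, ← map_mul, mul_inv_cancel, map_one, mul_one]
  rw [h1, map_mul ρ, map_mul ρ, ← mul_assoc, LinearMap.trace_mul_comm]
  simp only [mul_assoc]

theorem wtr_eq_zero (l : A →* ℂˣ) (g : G) (h : (dualAction A).smul g l ≠ l) :
    wtr A ρ l g = 0 := by
  classical
  unfold wtr
  have h1 : wproj A ρ l = wproj A ρ l * wproj A ρ l := by rw [wproj_mul, if_pos rfl]
  rw [h1, ← mul_assoc, wproj_conj, LinearMap.trace_mul_comm, ← mul_assoc, wproj_mul,
    if_neg h, zero_mul, map_zero]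

include hA in
theorem char_eq_sum (g : G) :
    LinearMap.trace ℂ V (ρ g) =
      ∑ᶠ l : A →* ℂˣ, open Classical in if (dualAction A).smul g l = l then wtr A ρ l g else 0 := by
  classical
  have : Fintype (A →* ℂˣ) := Fintype.ofFinite _
  have h1 : ρ g = ∑ᶠ l : A →* ℂˣ, ρ g * wproj A ρ l := by
    rw [finsum_eq_sum_of_fintype, ← Finset.mul_sum, ← finsum_eq_sum_of_fintype, sum_wproj A ρ hA, mul_one]
  conv_lhs => rw [h1]
  rw [finsum_eq_sum_of_fintype, finsum_eq_sum_of_fintype, map_sum]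
  refine Finset.sum_congr rfl fun l _ => ?_
  split_ifs with h
  · rfl
  · exact wtr_eq_zero A ρ l g h

end

end StarkSolomon
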